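import Pool.Agent.H42K.ArithB
import Pool.Agent.H72K.Def3

/-! The recursion bound for the centred window (MP_a19305_co). -/

set_option autoImplicit false

namespace Pool.Agent.H37K

open Pool.Agent.H42K Pool.Agent.H42K.ArithB Pool.Agent.H72K

theorem cnt3_add (m v s : ℕ) : cnt3 m v s + cnt m s = cnt m (s + v) := by
  unfold cnt3 cnt
  rw [← Finset.card_union_of_disjoint]
  · congr 1
    ext p
    simp only [Finset.mem_union, Finset.mem_filter]
    constructor
    · rintro (⟨h1, h2, h3, h4⟩ | ⟨h1, h2, h3⟩)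
      · exact ⟨h1, h2, h4⟩
      · exact ⟨h1, h2, by omega⟩
    · rintro ⟨h1, h2, h3⟩
      by_cases h : p.1 + p.2 ≤ s
      · exact Or.inr ⟨h1, h2, h⟩
      · exact Or.inl ⟨h1, h2, by omega, h3⟩
  · rw [Finset.disjoint_left]
    intro p hp hq
    have h1 := (Finset.mem_filter.1 hp).2
    have h2 := (Finset.mem_filter.1 hq).2
    omega

theorem cnt_le (s m : ℕ) (h1 : s + 2 ≤ 2 * m) (h2 : m ≤ s + 2) :
    4 * (cnt m s : ℤ) ≤ 2 * (m : ℤ) * (m - 1) - (2 * m - 2 - s) ^ 2 + 1 := by
  induction m with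
  | zero => omega
  | succ m ih =>
    by_cases hm : s + 2 ≤ 2 * m
    · have h3 := ih hm (by omega)
      rw [cnt_succ]
      have h4 : min m (s + 1 - m) = s + 1 - m := by omega
      rw [h4]
      have h5 : ((s + 1 - m : ℕ) : ℤ) = s + 1 - m := by omega
      push_cast
      rw [h5]
      nlinarith
    · have h3 := cnt_small s (m + 1) (by omega)
      have h6 : 2 * m = s ∨ 2 * m = s + 1 := by omega
      rcases h6 with h6 | h6
      · have h7 : (s : ℤ) = 2 * m := by exact_mod_cast h6.symm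
        rw [h7]
        push_cast at h3 ⊢
        nlinarith
      · have h7 : (s : ℤ) = 2 * m - 1 := by
          have : (2 * (m : ℤ)) = s + 1 := by exact_mod_cast h6
          linarith
        rw [h7]
        push_cast at h3 ⊢
        nlinarith

theorem cnt_top (s m : ℕ) (h : s + 1 ≤ m) : 4 * (cnt m s : ℤ) ≤ ((s : ℤ) + 1) ^ 2 := by
  induction m with
  | zero => omega
  | succ m ih =>
    by_cases hm : s + 1 ≤ m
    · have h1 := ih hm
      rw [cnt_succ]
      have h2 : min m (s + 1 - m) = 0 := by omega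
      rw [h2]
      exact_mod_cast h1
    · have h2 : m = s := by omega
      subst h2
      have h3 := cnt_le m (m + 1) (by omega) (by omega)
      push_cast at h3 ⊢
      nlinarith

/-- lower bound for the window, in integers -/
theorem cnt3_ge (m v s : ℕ) (h1 : s + v + 2 ≤ 2 * m) (h2 : m ≤ s + v + 2) (h3 : s + 1 ≤ m) :
    ∃ A B : ℤ, (cnt3 m v s : ℤ) = A - B ∧
      2 * (m : ℤ) * (m - 1) ≤ 4 * A + (2 * m - 2 - (s + v)) ^ 2 ∧ 4 * B ≤ ((s : ℤ) + 1) ^ 2 := by
  refine ⟨cnt m (s + v), cnt m s, ?_, ?_, cnt_top s m h3⟩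
  · have := cnt3_add m v s
    have h : (cnt3 m v s : ℤ) + cnt m s = cnt m (s + v) := by exact_mod_cast this
    linarith
  · have := cnt_ge (s + v) m h1 h2
    push_cast at this
    exact this

/-- the number of new points -/
def mm (n : ℕ) : ℕ := if n % 8 = 2 then n / 2 + 1 else (n + 1) / 2

theorem mm_le {n : ℕ} (h : ¬ n < 3) : 2 ≤ mm n ∧ mm n ≤ n := by
  unfold mm
  split_ifs <;> omega

/-- the recursion -/
def R3 (n : ℕ) : ℕ :=
  if _h : n < 3 then 0
  else R3 (n - mm n) + cnt3 (mm n) (n - mm n) (mm n / 2 - 1)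
termination_by n
decreasing_by
  have := mm_le _h
  omega

theorem R3_small {n : ℕ} (h : n < 3) : R3 n = 0 := by
  rw [R3, dif_pos h]

theorem R3_big {n : ℕ} (h : ¬ n < 3) :
    R3 n = R3 (n - mm n) + cnt3 (mm n) (n - mm n) (mm n / 2 - 1) := by
  rw [R3, dif_neg h]

/-- the quarter squares -/
theorem quarter (A C : ℤ) (q : ℤ) (x : ℤ) (hx : x ^ 2 = 4 * q ∨ x ^ 2 = 4 * q + 1)
    (h : 4 * C ≤ 4 * A + x ^ 2) : C ≤ A + q := by
  rcases hx with hx | hx <;> omega

theorem R3_low : ∀ n : ℕ, n ^ 2 ≤ 8 * R3 n + 2 * n := by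
  intro n
  induction n using Nat.strong_induction_on with
  | _ n ih =>
    by_cases h : n < 3
    · rw [R3_small h]
      interval_cases n <;> norm_num
    · rw [R3_big h]
      -- a uniform treatment
      have hcases : (∃ k, 1 ≤ k ∧ n = 4 * k - 1 ∧ mm n = 2 * k) ∨
          (∃ k, 1 ≤ k ∧ n = 4 * k + 1 ∧ mm n = 2 * k + 1) ∨
          (∃ k, 1 ≤ k ∧ n = 4 * k ∧ mm n = 2 * k) ∨
          (∃ k, n = 8 * k + 6 ∧ mm n = 4 * k + 3) ∨
          (∃ k, 1 ≤ k ∧ n = 8 * k + 2 ∧ mm n = 4 * k + 2) := by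
        unfold mm
        have h8 : n % 8 = 0 ∨ n % 8 = 1 ∨ n % 8 = 2 ∨ n % 8 = 3 ∨ n % 8 = 4 ∨ n % 8 = 5 ∨
          n % 8 = 6 ∨ n % 8 = 7 := by omega
        rcases h8 with h8 | h8 | h8 | h8 | h8 | h8 | h8 | h8
        · exact Or.inr (Or.inr (Or.inl ⟨n / 4, by omega, by omega, by
            rw [if_neg (by omega)]; omega⟩))
        · exact Or.inr (Or.inl ⟨n / 4, by omega, by omega, by
            rw [if_neg (by omega)]; omega⟩)
        · exact Or.inr (Or.inr (Or.inr (Or.inr ⟨n / 8, by omega, by omega, by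
            rw [if_pos (by omega)]; omega⟩)))
        · exact Or.inl ⟨n / 4 + 1, by omega, by omega, by
            rw [if_neg (by omega)]; omega⟩
        · exact Or.inr (Or.inr (Or.inl ⟨n / 4, by omega, by omega, by
            rw [if_neg (by omega)]; omega⟩))
        · exact Or.inr (Or.inl ⟨n / 4, by omega, by omega, by
            rw [if_neg (by omega)]; omega⟩)
        · exact Or.inr (Or.inr (Or.inr (Or.inl ⟨n / 8, by omega, by
            rw [if_neg (by omega)]; omega⟩)))
        · exact Or.inl ⟨n / 4 + 1, by omega, by omega, by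
            rw [if_neg (by omega)]; omega⟩
      rcases hcases with ⟨k, hk, hn, hm⟩ | ⟨k, hk, hn, hm⟩ | ⟨k, hk, hn, hm⟩ | ⟨k, hn, hm⟩ |
        ⟨k, hk, hn, hm⟩
      · -- n = 4k - 1, m = 2k, v = 2k - 1, s = k - 1
        obtain ⟨j, rfl⟩ : ∃ j, k = j + 1 := ⟨k - 1, by omega⟩
        rw [hm]
        have e1 : n - 2 * (j + 1) = 2 * j + 1 := by omega
        have e2 : 2 * (j + 1) / 2 - 1 = j := by omega
        rw [e1, e2]
        have h6 := ih (2 * j + 1) (by omega)
        obtain ⟨A, B, h1, h2, h3⟩ := cnt3_ge (2 * (j + 1)) (2 * j + 1) j (by omega) (by omega)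
          (by omega)
        have hn' : (n : ℤ) = 4 * j + 3 := by omega
        have h6' : (2 * (j : ℤ) + 1) ^ 2 ≤ 8 * (R3 (2 * j + 1) : ℤ) + 2 * (2 * j + 1) := by
          exact_mod_cast h6
        have goal' : (n : ℤ) ^ 2 ≤ 8 * ((R3 (2 * j + 1) : ℤ) +
            (cnt3 (2 * (j + 1)) (2 * j + 1) j : ℤ)) + 2 * n := by
          rw [hn', h1]
          push_cast at h2
          nlinarith
        exact_mod_cast goal'
      · -- n = 4k + 1, m = 2k + 1, v = 2k, s = k - 1
        obtain ⟨j, rfl⟩ : ∃ j, k = j + 1 := ⟨k - 1, by omega⟩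
        rw [hm]
        have e1 : n - (2 * (j + 1) + 1) = 2 * j + 2 := by omega
        have e2 : (2 * (j + 1) + 1) / 2 - 1 = j := by omega
        rw [e1, e2]
        have h6 := ih (2 * j + 2) (by omega)
        obtain ⟨A, B, h1, h2, h3⟩ := cnt3_ge (2 * (j + 1) + 1) (2 * j + 2) j (by omega)
          (by omega) (by omega)
        have hn' : (n : ℤ) = 4 * j + 5 := by omega
        have h6' : (2 * (j : ℤ) + 2) ^ 2 ≤ 8 * (R3 (2 * j + 2) : ℤ) + 2 * (2 * j + 2) := by
          exact_mod_cast h6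
        have goal' : (n : ℤ) ^ 2 ≤ 8 * ((R3 (2 * j + 2) : ℤ) +
            (cnt3 (2 * (j + 1) + 1) (2 * j + 2) j : ℤ)) + 2 * n := by
          rw [hn', h1]
          push_cast at h2
          -- squares `(j + 1) ^ 2` and `(j + 2) ^ 2`
          rcases Nat.even_or_odd' j with ⟨i, hi | hi⟩
          · have hj : (j : ℤ) = 2 * i := by exact_mod_cast hi
            rw [hj] at h2 h3 h6' ⊢
            have a1 : B ≤ (i : ℤ) ^ 2 + i := by nlinarith
            nlinarith
          · have hj : (j : ℤ) = 2 * i + 1 := by exact_mod_cast hi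
            rw [hj] at h2 h3 h6' ⊢
            have a1 : 4 * A ≥ 4 * ((2 * (i : ℤ) + 2) * (4 * i + 5) * 1) -
              (2 * i + 3) ^ 2 := by nlinarith
            have a2 : A ≥ (2 * (i : ℤ) + 2) * (4 * i + 5) - (i ^ 2 + 3 * i + 2) := by nlinarith
            nlinarith
        exact_mod_cast goal'
      · -- n = 4k, m = 2k, v = 2k, s = k - 1
        obtain ⟨j, rfl⟩ : ∃ j, k = j + 1 := ⟨k - 1, by omega⟩
        rw [hm]
        have e1 : n - 2 * (j + 1) = 2 * j + 2 := by omega
        have e2 : 2 * (j + 1) / 2 - 1 = j := by omega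
        rw [e1, e2]
        have h6 := ih (2 * j + 2) (by omega)
        obtain ⟨A, B, h1, h2, h3⟩ := cnt3_ge (2 * (j + 1)) (2 * j + 2) j (by omega) (by omega)
          (by omega)
        have hn' : (n : ℤ) = 4 * j + 4 := by omega
        have h6' : (2 * (j : ℤ) + 2) ^ 2 ≤ 8 * (R3 (2 * j + 2) : ℤ) + 2 * (2 * j + 2) := by
          exact_mod_cast h6
        have goal' : (n : ℤ) ^ 2 ≤ 8 * ((R3 (2 * j + 2) : ℤ) +
            (cnt3 (2 * (j + 1)) (2 * j + 2) j : ℤ)) + 2 * n := by
          rw [hn', h1]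
          push_cast at h2
          rcases Nat.even_or_odd' j with ⟨i, hi | hi⟩
          · have hj : (j : ℤ) = 2 * i := by exact_mod_cast hi
            rw [hj] at h2 h3 h6' ⊢
            have a1 : B ≤ (i : ℤ) ^ 2 + i := by nlinarith
            nlinarith
          · have hj : (j : ℤ) = 2 * i + 1 := by exact_mod_cast hi
            rw [hj] at h2 h3 h6' ⊢
            have a2 : A ≥ (2 * (i : ℤ) + 2) * (4 * i + 3) - (i ^ 2 + i) := by nlinarith
            nlinarith
        exact_mod_cast goal'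
      · -- n = 8k + 6, m = 4k + 3, v = 4k + 3, s = 2k
        rw [hm]
        have e1 : n - (4 * k + 3) = 4 * k + 3 := by omega
        have e2 : (4 * k + 3) / 2 - 1 = 2 * k := by omega
        rw [e1, e2]
        have h6 := ih (4 * k + 3) (by omega)
        obtain ⟨A, B, h1, h2, h3⟩ := cnt3_ge (4 * k + 3) (4 * k + 3) (2 * k) (by omega)
          (by omega) (by omega)
        have hn' : (n : ℤ) = 8 * k + 6 := by omega
        have h6' : (4 * (k : ℤ) + 3) ^ 2 ≤ 8 * (R3 (4 * k + 3) : ℤ) + 2 * (4 * k + 3) := by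
          exact_mod_cast h6
        have goal' : (n : ℤ) ^ 2 ≤ 8 * ((R3 (4 * k + 3) : ℤ) +
            (cnt3 (4 * k + 3) (4 * k + 3) (2 * k) : ℤ)) + 2 * n := by
          rw [hn', h1]
          push_cast at h2 h3
          have a1 : B ≤ (k : ℤ) ^ 2 + k := by nlinarith
          have a2 : A ≥ (4 * (k : ℤ) + 3) * (2 * k + 1) - (k ^ 2 + k) := by nlinarith
          nlinarith
        exact_mod_cast goal'
      · -- n = 8k + 2, m = 4k + 2, v = 4k, s = 2k
        rw [hm]
        have e1 : n - (4 * k + 2) = 4 * k := by omega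
        have e2 : (4 * k + 2) / 2 - 1 = 2 * k := by omega
        rw [e1, e2]
        have h6 := ih (4 * k) (by omega)
        obtain ⟨A, B, h1, h2, h3⟩ := cnt3_ge (4 * k + 2) (4 * k) (2 * k) (by omega)
          (by omega) (by omega)
        have hn' : (n : ℤ) = 8 * k + 2 := by omega
        have h6' : (4 * (k : ℤ)) ^ 2 ≤ 8 * (R3 (4 * k) : ℤ) + 2 * (4 * k) := by
          exact_mod_cast h6
        have goal' : (n : ℤ) ^ 2 ≤ 8 * ((R3 (4 * k) : ℤ) +
            (cnt3 (4 * k + 2) (4 * k) (2 * k) : ℤ)) + 2 * n := by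
          rw [hn', h1]
          push_cast at h2 h3
          have a1 : B ≤ (k : ℤ) ^ 2 + k := by nlinarith
          have a2 : A ≥ (2 * (k : ℤ) + 1) * (4 * k + 1) - (k + 1) ^ 2 := by nlinarith
          nlinarith
        exact_mod_cast goal'

/-- there is a sequence `R` with the recursion and `8 * R n ≥ n ^ 2 - 2 * n` for all `n` -/
theorem exists_R3 : ∃ R : ℕ → ℕ,
    (∀ n, R n = 0 ∨ ∃ m v s, 2 ≤ m ∧ m + v = n ∧ s + 2 ≤ m ∧ R n ≤ R v + cnt3 m v s) ∧
    (∀ n, n ^ 2 ≤ 8 * R n + 2 * n) := by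
  refine ⟨R3, fun n => ?_, R3_low⟩
  by_cases h : n < 3
  · exact Or.inl (R3_small h)
  · right
    have h1 := mm_le h
    exact ⟨mm n, n - mm n, mm n / 2 - 1, h1.1, by omega, by omega, (R3_big h).le⟩

end Pool.Agent.H37K
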